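import Pool.Agent.H91.TC.Basic

/-!
# Row CLA of tsc_modules: the perturbations used are close (helper79)
-/

set_option autoImplicit false

open Set Function Topology Metric Filter
open scoped Manifold

namespace Pool.Agent.H79.TSC

open Pool.Agent.H88.CL Pool.Agent.H88.CM Pool.Agent.H91.TC

theorem pf_CLA (hC : T_CVC) (hF : T_CVF) (hB : T_CVB) (hA : T_CVA) (hT : T_CVT) : T_CLA := by
  intro n k M _ _ _ _ a f f' κ K hAct hDM hκ hK hKt φ ψ Q hTest η hη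
  have hf : ContMDiff 𝓘(ℝ, E n) 𝓘(ℝ, E n) 2 f := hDM.1
  by_contra hcon
  push Not at hcon
  have ht0 : ∀ i : ℕ, (0 : ℝ) < 1 / ((i : ℝ) + 2) := fun i => by positivity
  have ht1 : ∀ i : ℕ, (1 : ℝ) / ((i : ℝ) + 2) ≤ 1 / 2 := by
    intro i
    refine one_div_le_one_div_of_le (by norm_num) ?_
    have : (0 : ℝ) ≤ (i : ℝ) := Nat.cast_nonneg i
    linarith
  have hlim : Tendsto (fun i : ℕ => (1 : ℝ) / ((i : ℝ) + 2)) atTop (𝓝 0) := by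
    have h1 : Tendsto (fun i : ℕ => (i : ℝ) + 2) atTop atTop :=
      tendsto_atTop_add_const_right _ _ tendsto_natCast_atTop_atTop
    have h2 := h1.inv_tendsto_atTop
    refine h2.congr fun i => ?_
    rw [one_div]
    rfl
  choose w U V V' hw hU hV hV' hnot using fun i : ℕ => hcon (1 / ((i : ℝ) + 2)) (ht0 i) (ht1 i)
  have hwlim : Tendsto w atTop (𝓝 0) := squeeze_zero_norm hw hlim
  obtain ⟨sU, cU⟩ := hB n M κ K hκ hK hKt U (fun i => 1 / ((i : ℝ) + 2)) ht1 hlim hU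
  obtain ⟨sV, cV⟩ := hB n M κ K hκ hK hKt V (fun i => 1 / ((i : ℝ) + 2)) ht1 hlim hV
  obtain ⟨sV', cV'⟩ := hB n M κ K hκ hK hKt V' (fun i => 1 / ((i : ℝ) + 2)) ht1 hlim hV'
  obtain ⟨sA, cA⟩ := hA n k M a hAct w hwlim
  have cF := hF n M f hf
  have hid : ContMDiff 𝓘(ℝ, E n) 𝓘(ℝ, E n) 2 (id : M → M) := contMDiff_id
  have c1 : Cv n (fun i => f ∘ bmp κ (U i)) (f ∘ id) :=
    hC n M (fun i => bmp κ (U i)) (fun _ => f) id f sU (fun _ => hf) hid hf cU cF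
  have s1 : ∀ i, ContMDiff 𝓘(ℝ, E n) 𝓘(ℝ, E n) 2 (f ∘ bmp κ (U i)) := fun i => hf.comp (sU i)
  have c2 : Cv n (fun i => a (w i) ∘ (f ∘ bmp κ (U i))) (id ∘ (f ∘ id)) :=
    hC n M (fun i => f ∘ bmp κ (U i)) (fun i => a (w i)) (f ∘ id) id s1 sA hf hid c1 cA
  have s2 : ∀ i, ContMDiff 𝓘(ℝ, E n) 𝓘(ℝ, E n) 2 (a (w i) ∘ (f ∘ bmp κ (U i))) :=
    fun i => (sA i).comp (s1 i)
  have c3 : Cv n (fun i => (a (w i) ∘ (f ∘ bmp κ (U i))) ∘ bmp κ (V i))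
      ((id ∘ (f ∘ id)) ∘ id) :=
    hC n M (fun i => bmp κ (V i)) (fun i => a (w i) ∘ (f ∘ bmp κ (U i))) id (id ∘ (f ∘ id))
      sV s2 hid hf cV c2
  have s3 : ∀ i, ContMDiff 𝓘(ℝ, E n) 𝓘(ℝ, E n) 2
      ((a (w i) ∘ (f ∘ bmp κ (U i))) ∘ bmp κ (V i)) := fun i => (s2 i).comp (sV i)
  have c4 : Cv n (fun i => bmp κ (V' i) ∘ ((a (w i) ∘ (f ∘ bmp κ (U i))) ∘ bmp κ (V i)))
      (id ∘ ((id ∘ (f ∘ id)) ∘ id)) :=
    hC n M (fun i => (a (w i) ∘ (f ∘ bmp κ (U i))) ∘ bmp κ (V i)) (fun i => bmp κ (V' i))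
      ((id ∘ (f ∘ id)) ∘ id) id s3 sV' hf hid c3 cV'
  have h5 := hT n M (fun i => bmp κ (V' i) ∘ ((a (w i) ∘ (f ∘ bmp κ (U i))) ∘ bmp κ (V i))) f
    hf c4 φ ψ Q hTest η hη
  obtain ⟨i, hi⟩ := h5.exists
  exact hnot i hi

end Pool.Agent.H79.TSC
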