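import Pool.Agent.H91.TC.Basic

/-!
# Row PER of tsc_modules: the case of a periodic orbit (helper79)
-/

set_option autoImplicit false

open Set Function Topology Metric Filter
open scoped Manifold

namespace Pool.Agent.H79.TSC

open Pool.Agent.H88.CL Pool.Agent.H88.CM Pool.Agent.H91.TC

section

variable {k : ℕ} {M : Type} {a : E k → M → M} {f : M → M}

lemma iter_comm (hf : ∀ v y, f (a v y) = a v (f y)) (j : ℕ) (v : E k) (y : M) :
    f^[j] (a v y) = a v (f^[j] y) := by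
  induction j generalizing y with
  | zero => rfl
  | succ j ih =>
    rw [iterate_succ_apply, iterate_succ_apply, hf, ih]

lemma iter_mul (h0 : ∀ y, a 0 y = y) (hadd : ∀ v w y, a (v + w) y = a v (a w y))
    (hf : ∀ v y, f (a v y) = a v (f y)) {x : M} {m : ℕ} {v : E k} (hx : f^[m] x = a v x)
    (s : ℕ) : f^[m * s] x = a ((s : ℝ) • v) x := by
  induction s with
  | zero => simp [h0]
  | succ s ih =>
    have h1 : m * (s + 1) = m * s + m := by ring
    rw [h1, iterate_add_apply, hx, iter_comm hf, ih, ← hadd]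
    congr 1
    push_cast
    rw [add_smul, one_smul, add_comm]

lemma iter_tw (h0 : ∀ y, a 0 y = y) (hadd : ∀ v w y, a (v + w) y = a v (a w y))
    (hf : ∀ v y, f (a v y) = a v (f y)) (w : E k) (m : ℕ) (y : M) :
    (a w ∘ f)^[m] y = a ((m : ℝ) • w) (f^[m] y) := by
  induction m with
  | zero => simp [h0]
  | succ m ih =>
    rw [iterate_succ_apply', ih, comp_apply, hf, ← hadd, iterate_succ_apply']
    congr 1
    push_cast
    rw [add_smul, one_smul, add_comm]

/-- rounding -/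
lemma rnd (v : E k) : ∃ z ∈ Lat k, ‖z - v‖ ≤ √(k : ℝ) := by
  refine ⟨WithLp.toLp 2 fun i => ((round (v i) : ℤ) : ℝ), fun i => ⟨round (v i), rfl⟩, ?_⟩
  rw [EuclideanSpace.norm_eq]
  refine Real.sqrt_le_sqrt ?_
  calc ∑ i, ‖(WithLp.toLp 2 (fun i => ((round (v i) : ℤ) : ℝ)) - v : E k) i‖ ^ 2 ≤
        ∑ _i : Fin k, (1 : ℝ) := by
        refine Finset.sum_le_sum fun i _ => ?_
        have h1 : (WithLp.toLp 2 (fun i => ((round (v i) : ℤ) : ℝ)) - v : E k) i =
            (round (v i) : ℝ) - v i := rfl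
        rw [h1, Real.norm_eq_abs, sq_abs]
        have h2 := abs_sub_round (v i)
        rw [abs_sub_comm] at h2
        have h3 := abs_le.1 h2
        nlinarith [h3.1, h3.2]
    _ = (k : ℝ) := by simp

end

theorem pf_PER : T_PER := by
  intro n k M _ _ a x f hA hLat hf hex ε hε
  obtain ⟨m0, v0, hm0, hx⟩ := hex
  obtain ⟨s0, hs0⟩ := exists_nat_ge (√(k : ℝ) / ε)
  have hs1 : √(k : ℝ) ≤ ε * ((s0 + 1 : ℕ) : ℝ) := by
    rw [div_le_iff₀ hε] at hs0
    push_cast
    nlinarith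
  obtain ⟨z, hz, hzn⟩ := rnd (((s0 + 1 : ℕ) : ℝ) • v0)
  have hm : 1 ≤ m0 * (s0 + 1) := Nat.mul_pos hm0 (Nat.succ_pos _)
  have hmR : (0 : ℝ) < ((m0 * (s0 + 1) : ℕ) : ℝ) := by exact_mod_cast hm
  refine ⟨(((m0 * (s0 + 1) : ℕ) : ℝ))⁻¹ • (z - ((s0 + 1 : ℕ) : ℝ) • v0), m0 * (s0 + 1), ?_, hm, ?_⟩
  · rw [norm_smul, norm_inv, Real.norm_eq_abs, abs_of_pos hmR, inv_mul_le_iff₀ hmR]
    refine hzn.trans (hs1.trans ?_)
    rw [mul_comm]
    refine mul_le_mul_of_nonneg_right ?_ hε.le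
    have : s0 + 1 ≤ m0 * (s0 + 1) := Nat.le_mul_of_pos_left _ hm0
    exact_mod_cast this
  · rw [iter_tw hA.zero hA.add hf, iter_mul hA.zero hA.add hf hx, ← hA.add, smul_smul,
      mul_inv_cancel₀ hmR.ne', one_smul, sub_add_cancel]
    exact hLat z hz

end Pool.Agent.H79.TSC
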